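import Pool.Agent.Helper78.Avg.Count

/-!
# Short words and long words
-/

namespace Pool.Agent.Helper78.Avg

open Pool.Agent.Helper65.LinSpace Finset

theorem LS.app3 {U : ℕ → ℕ → ℕ → ℕ}
    (h : ∀ {α : Type} [Ctx α] {e a x : α → ℕ}, LS e → LS a → LS x →
      LS fun z => U (e z) (a z) (x z)) : LS (fun z : ℕ × ℕ × ℕ => U z.1 z.2.1 z.2.2) :=
  h (by fun_prop) (by fun_prop) (by fun_prop)

/-- The trivial bound for short words. -/
theorem small_case {n N e : ℕ} (a : List Bool) {S : Set (List Bool)}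
    (hS : S ⊆ {w | w.length = n}) (h : n < N) : (S.ncard : ℝ) ≤
      2 ^ n / 2 + 2 ^ (e + 1 + N) * ((min a.length (n - a.length) : ℕ) + 1) * 2 ^ (((n : ℝ) + a.length) / 2) := by
  have h1 := ncard_le_pow hS
  have hn0 : (0 : ℝ) ≤ n := Nat.cast_nonneg n
  have hm0 : (0 : ℝ) ≤ a.length := Nat.cast_nonneg _
  have h2 : (1 : ℝ) ≤ 2 ^ (((n : ℝ) + a.length) / 2) := two_le_rpow_half (by positivity)
  have h3 : (2 : ℝ) ^ n ≤ 2 ^ (e + 1 + N) := pow_le_pow_right₀ (by norm_num) (by omega)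
  have h4 : (2 : ℝ) ^ (e + 1 + N) * 1 * 1 ≤
      2 ^ (e + 1 + N) * ((min a.length (n - a.length) : ℕ) + 1) * 2 ^ (((n : ℝ) + a.length) / 2) := by
    refine mul_le_mul (mul_le_mul_of_nonneg_left (by linarith) (by positivity)) h2
      (by norm_num) (by positivity)
  have h5 : (0 : ℝ) ≤ 2 ^ n := by positivity
  linarith

theorem large_case {N e n : ℕ} (a : List Bool) {X : ℝ}
    (h : X ≤ 2 ^ n / 2 + 2 ^ (e + 1) * ((min a.length (n - a.length) : ℕ) + 1) * 2 ^ (((n : ℝ) + a.length) / 2)) :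
    X ≤ 2 ^ n / 2 + 2 ^ (e + 1 + N) * ((min a.length (n - a.length) : ℕ) + 1) * 2 ^ (((n : ℝ) + a.length) / 2) := by
  refine h.trans ?_
  have hm0 : (0 : ℝ) ≤ a.length := Nat.cast_nonneg _
  have h3 : (2 : ℝ) ^ (e + 1) ≤ 2 ^ (e + 1 + N) := pow_le_pow_right₀ (by norm_num) (by omega)
  have h4 : (2 : ℝ) ^ (e + 1) * ((min a.length (n - a.length) : ℕ) + 1) * 2 ^ (((n : ℝ) + a.length) / 2) ≤
      2 ^ (e + 1 + N) * ((min a.length (n - a.length) : ℕ) + 1) * 2 ^ (((n : ℝ) + a.length) / 2) := by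
    refine mul_le_mul_of_nonneg_right (mul_le_mul_of_nonneg_right h3 (by positivity))
      (by positivity)
  linarith

end Pool.Agent.Helper78.Avg
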