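import Pool.Agent.Helper65.LinSpace.Arith3

/-!
# Parseval's identity for parities of binary digits
-/

namespace Pool.Agent.Helper78.Avg

open Pool.Agent.Helper65.LinSpace Finset

/-- The inner product of the first `n` binary digits. -/
def ip (n s z : ℕ) : ℕ := ∑ i ∈ range n, dig 2 s i * dig 2 z i

theorem ip_succ (n s z : ℕ) : ip (n + 1) s z = ip n (s / 2) (z / 2) + dig 2 s 0 * dig 2 z 0 := by
  unfold ip
  rw [sum_range_succ']
  simp only [dig_succ]

theorem sum_range_two_mul {f : ℕ → ℤ} (m : ℕ) :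
    ∑ s ∈ range (2 * m), f s = ∑ s ∈ range m, (f (2 * s) + f (2 * s + 1)) := by
  induction m with
  | zero => simp
  | succ m ih =>
    rw [show 2 * (m + 1) = 2 * m + 1 + 1 by ring, sum_range_succ, sum_range_succ, ih,
      sum_range_succ]
    ring

/-- Orthogonality of the characters. -/
theorem sum_char (n z z' : ℕ) : ∑ s ∈ range (2 ^ n), (-1 : ℤ) ^ ip n s z * (-1) ^ ip n s z' =
    if ∀ i < n, dig 2 z i = dig 2 z' i then 2 ^ n else 0 := by
  induction n generalizing z z' with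
  | zero => simp [ip]
  | succ n ih =>
    rw [pow_succ, mul_comm, sum_range_two_mul]
    have h0 : ∀ s, dig 2 (2 * s) 0 = 0 := fun s => by
      rw [dig_zero]
      omega
    have h1 : ∀ s, dig 2 (2 * s + 1) 0 = 1 := fun s => by
      rw [dig_zero]
      omega
    have h2 : ∀ s, 2 * s / 2 = s := fun s => by omega
    have h3 : ∀ s, (2 * s + 1) / 2 = s := fun s => by omega
    simp only [ip_succ, h0, h1, h2, h3, zero_mul, one_mul, add_zero]
    have h4 : ∀ s, (-1 : ℤ) ^ ip n s (z / 2) * (-1) ^ ip n s (z' / 2) +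
        (-1) ^ (ip n s (z / 2) + dig 2 z 0) * (-1) ^ (ip n s (z' / 2) + dig 2 z' 0) =
        (1 + (-1) ^ (dig 2 z 0 + dig 2 z' 0)) *
          ((-1 : ℤ) ^ ip n s (z / 2) * (-1) ^ ip n s (z' / 2)) := by
      intro s
      simp only [pow_add]
      ring
    rw [sum_congr rfl fun s _ => h4 s, ← mul_sum, ih]
    have ha := dig_lt (q := 2) (by norm_num) z 0
    have hb := dig_lt (q := 2) (by norm_num) z' 0
    have h5 : (∀ i < n + 1, dig 2 z i = dig 2 z' i) ↔
        dig 2 z 0 = dig 2 z' 0 ∧ ∀ i < n, dig 2 (z / 2) i = dig 2 (z' / 2) i := by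
      constructor
      · intro h
        exact ⟨h 0 (by omega), fun i hi => by
          rw [← dig_succ, ← dig_succ]
          exact h (i + 1) (by omega)⟩
      · rintro ⟨h, h'⟩ i hi
        rcases i with _ | i
        · exact h
        · rw [dig_succ, dig_succ]
          exact h' i (by omega)
    by_cases h6 : dig 2 z 0 = dig 2 z' 0
    · have h7 : (1 : ℤ) + (-1) ^ (dig 2 z 0 + dig 2 z' 0) = 2 := by
        rw [h6, ← two_mul, pow_mul]
        norm_num
      rw [h7]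
      by_cases h8 : ∀ i < n, dig 2 (z / 2) i = dig 2 (z' / 2) i
      · rw [if_pos h8, if_pos (h5.2 ⟨h6, h8⟩)]
        ring
      · rw [if_neg h8, if_neg fun h => h8 (h5.1 h).2]
        ring
    · have h7 : (1 : ℤ) + (-1) ^ (dig 2 z 0 + dig 2 z' 0) = 0 := by
        have : dig 2 z 0 + dig 2 z' 0 = 1 := by omega
        rw [this]
        norm_num
      rw [h7, zero_mul, if_neg fun h => h6 (h5.1 h).1]

theorem eq_of_dig {n z z' : ℕ} (hz : z < 2 ^ n) (hz' : z' < 2 ^ n)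
    (h : ∀ i < n, dig 2 z i = dig 2 z' i) : z = z' := by
  rw [← tab_dig z n hz, ← tab_dig z' n hz']
  exact tab_congr h

/-- Parseval's identity. -/
theorem parseval (n : ℕ) (F : ℕ → ℤ) : ∑ s ∈ range (2 ^ n),
    (∑ z ∈ range (2 ^ n), F z * (-1) ^ ip n s z) ^ 2 = 2 ^ n * ∑ z ∈ range (2 ^ n), F z ^ 2 := by
  have h1 : ∀ s, (∑ z ∈ range (2 ^ n), F z * (-1) ^ ip n s z) ^ 2 =
      ∑ z ∈ range (2 ^ n), ∑ z' ∈ range (2 ^ n), F z * F z' *
        ((-1 : ℤ) ^ ip n s z * (-1) ^ ip n s z') := by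
    intro s
    rw [sq, sum_mul_sum]
    refine sum_congr rfl fun z _ => sum_congr rfl fun z' _ => ?_
    ring
  rw [sum_congr rfl fun s _ => h1 s, sum_comm, mul_sum]
  refine sum_congr rfl fun z hz => ?_
  rw [sum_comm]
  have h2 : ∀ z' ∈ range (2 ^ n), ∑ s ∈ range (2 ^ n), F z * F z' *
      ((-1 : ℤ) ^ ip n s z * (-1) ^ ip n s z') = if z' = z then 2 ^ n * F z ^ 2 else 0 := by
    intro z' hz'
    rw [← mul_sum, sum_char]
    by_cases h : z' = z
    · subst h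
      rw [if_pos fun i _ => rfl, if_pos rfl]
      ring
    · rw [if_neg fun h' => h (eq_of_dig (mem_range.1 hz) (mem_range.1 hz') h').symm, if_neg h,
        mul_zero]
  rw [sum_congr rfl h2, sum_ite_eq' (range (2 ^ n)) z, if_pos hz]

/-- The number of the `z < 2 ^ n` for which the bit `f z` is different from the parity with index
`s`. -/
def dis (f : ℕ → ℕ) (n s : ℕ) : ℕ := ∑ z ∈ range (2 ^ n), (f z + ip n s z) % 2

theorem neg_one_pow_eq (k : ℕ) : (-1 : ℤ) ^ k = 1 - 2 * ((k % 2 : ℕ) : ℤ) := by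
  rcases Nat.mod_two_eq_zero_or_one k with h | h
  · rw [h, Even.neg_one_pow (Nat.even_iff.2 h)]
    norm_num
  · rw [h, Odd.neg_one_pow (Nat.odd_iff.2 h)]
    norm_num

theorem sum_eq_dis (f : ℕ → ℕ) (n s : ℕ) :
    ∑ z ∈ range (2 ^ n), (-1 : ℤ) ^ f z * (-1) ^ ip n s z = 2 ^ n - 2 * (dis f n s : ℤ) := by
  have h : ∀ z, (-1 : ℤ) ^ f z * (-1) ^ ip n s z = 1 - 2 * (((f z + ip n s z) % 2 : ℕ) : ℤ) := by
    intro z
    rw [← pow_add, neg_one_pow_eq]
  rw [sum_congr rfl fun z _ => h z, sum_sub_distrib, ← mul_sum]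
  unfold dis
  push_cast
  simp

theorem sum_sq (f : ℕ → ℕ) (n : ℕ) :
    ∑ s ∈ range (2 ^ n), (2 ^ n - 2 * (dis f n s : ℤ)) ^ 2 = 4 ^ n := by
  have h := parseval n fun z => (-1) ^ f z
  rw [sum_congr rfl fun s _ => by rw [← sum_eq_dis f n s], h]
  have h2 : ∀ z, ((-1 : ℤ) ^ f z) ^ 2 = 1 := fun z => by
    rw [← pow_mul, mul_comm, pow_mul]
    norm_num
  rw [sum_congr rfl fun z _ => h2 z]
  have h3 : (4 : ℤ) ^ n = 2 ^ n * 2 ^ n := by
    rw [← mul_pow]
    norm_num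
  rw [sum_const, card_range, h3]
  simp

/-- Chebyshev's inequality. -/
theorem card_bad (f : ℕ → ℕ) (n W : ℕ) :
    ((range (2 ^ n)).filter fun s => (W : ℤ) < (2 ^ n - 2 * (dis f n s : ℤ)) ^ 2).card * W ≤
      4 ^ n := by
  have h : ((((range (2 ^ n)).filter fun s =>
      (W : ℤ) < (2 ^ n - 2 * (dis f n s : ℤ)) ^ 2).card * W : ℕ) : ℤ) ≤ 4 ^ n := by
    rw [← sum_sq f n, Nat.cast_mul, ← nsmul_eq_mul]
    calc _ ≤ ∑ s ∈ (range (2 ^ n)).filter fun s => (W : ℤ) < (2 ^ n - 2 * (dis f n s : ℤ)) ^ 2,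
          (2 ^ n - 2 * (dis f n s : ℤ)) ^ 2 :=
          card_nsmul_le_sum _ _ _ fun s hs => (mem_filter.1 hs).2.le
      _ ≤ _ := sum_le_sum_of_subset_of_nonneg (filter_subset _ _) fun s _ _ => sq_nonneg _
  exact_mod_cast h

/-! ### The union bound -/

/-- The bound for the code `e` and the advice with number `a`. -/
def wt (n e a : ℕ) : ℕ :=
  (min (Nat.log 2 a) (n - Nat.log 2 a) + 1) ^ 2 * 2 ^ (n + Nat.log 2 a + 2 * e + 4)

theorem sum_inv_sq (M : ℕ) :
    ∑ m ∈ range (M + 1), (1 : ℝ) / ((m : ℝ) + 1) ^ 2 ≤ 2 - 1 / ((M : ℝ) + 1) := by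
  induction M with
  | zero => norm_num
  | succ M ih =>
    rw [sum_range_succ]
    have h : (1 : ℝ) / (((M + 1 : ℕ) : ℝ) + 1) ^ 2 ≤
        1 / ((M : ℝ) + 1) - 1 / (((M + 1 : ℕ) : ℝ) + 1) := by
      push_cast
      have hM : (0 : ℝ) ≤ M := Nat.cast_nonneg M
      rw [div_sub_div _ _ (by positivity) (by positivity), div_le_div_iff₀ (by positivity)
        (by positivity)]
      nlinarith
    linarith

theorem sum_adv (g : ℕ → ℝ) (M : ℕ) : ∑ a ∈ range (2 ^ M), g (Nat.log 2 a) / 2 ^ Nat.log 2 a =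
      g 0 + ∑ m ∈ range M, g m := by
  induction M with
  | zero => simp
  | succ M ih =>
    have h1 : (2 : ℕ) ^ (M + 1) = 2 ^ M + 2 ^ M := by ring
    rw [h1, sum_range_add, sum_range_succ]
    have h2 : ∀ i ∈ range (2 ^ M),
        g (Nat.log 2 (2 ^ M + i)) / 2 ^ Nat.log 2 (2 ^ M + i) = g M / 2 ^ M := by
      intro i hi
      have hi' := mem_range.1 hi
      have : Nat.log 2 (2 ^ M + i) = M :=
        (Nat.log_eq_iff (Or.inr ⟨by norm_num, by positivity⟩)).2 ⟨by omega, by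
          rw [pow_succ]
          omega⟩
      rw [this]
    rw [sum_congr rfl h2, sum_const, card_range, nsmul_eq_mul]
    push_cast
    rw [mul_div_cancel₀ _ (by positivity), ih]
    ring

/-- The factor of the bound. -/
noncomputable def gf (n m : ℕ) : ℝ := 1 / (((min m (n - m) : ℕ) : ℝ) + 1) ^ 2

theorem gf_le (n m : ℕ) : gf n m ≤ 1 / ((m : ℝ) + 1) ^ 2 + 1 / (((n - m : ℕ) : ℝ) + 1) ^ 2 := by
  unfold gf
  have h1 : (0 : ℝ) ≤ 1 / ((m : ℝ) + 1) ^ 2 := by positivity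
  have h2 : (0 : ℝ) ≤ 1 / (((n - m : ℕ) : ℝ) + 1) ^ 2 := by positivity
  rcases min_choice m (n - m) with h | h
  · rw [h]
    linarith
  · rw [h]
    linarith

theorem sum_gf (n : ℕ) : gf n 0 + ∑ m ∈ range (n + 1), gf n m ≤ 5 := by
  have h1 : gf n 0 ≤ 1 := by
    unfold gf
    simp
  have h2 := sum_inv_sq n
  have h3 : ∑ m ∈ range (n + 1), (1 : ℝ) / (((n - m : ℕ) : ℝ) + 1) ^ 2 =
      ∑ m ∈ range (n + 1), (1 : ℝ) / ((m : ℝ) + 1) ^ 2 := by
    rw [← sum_range_reflect]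
    refine sum_congr rfl fun m hm => ?_
    have hm' := mem_range.1 hm
    have h4 : n - (n + 1 - 1 - m) = m := by omega
    rw [h4]
  have h4 : ∑ m ∈ range (n + 1), gf n m ≤ ∑ m ∈ range (n + 1), (1 : ℝ) / ((m : ℝ) + 1) ^ 2 +
      ∑ m ∈ range (n + 1), (1 : ℝ) / (((n - m : ℕ) : ℝ) + 1) ^ 2 := by
    rw [← sum_add_distrib]
    exact sum_le_sum fun m _ => gf_le n m
  rw [h3] at h4
  have h5 : (0 : ℝ) ≤ 1 / ((n : ℝ) + 1) := by positivity
  linarith

theorem sum_four (N : ℕ) : ∑ e ∈ range N, (1 : ℝ) / 4 ^ e ≤ 4 / 3 := by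
  have h : ∑ e ∈ range N, (1 : ℝ) / 4 ^ e = 4 / 3 - 4 / 3 / 4 ^ N := by
    induction N with
    | zero => norm_num
    | succ N ih =>
      rw [sum_range_succ, ih, pow_succ]
      field_simp
      ring
  rw [h]
  have : (0 : ℝ) ≤ 4 / 3 / 4 ^ N := by positivity
  linarith

/-- Some parity is far from all the functions `f e a`, with the bounds `wt n e a`. -/
theorem exists_good (f : ℕ → ℕ → ℕ → ℕ) (n : ℕ) : ∃ s < 2 ^ n, ∀ e < n + 1, ∀ a < 2 ^ (n + 1),
    (2 ^ n - 2 * (dis (f e a) n s : ℤ)) ^ 2 ≤ wt n e a := by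
  by_contra hno
  push Not at hno
  let B : ℕ → ℕ → Finset ℕ := fun e a =>
    (range (2 ^ n)).filter fun s => (wt n e a : ℤ) < (2 ^ n - 2 * (dis (f e a) n s : ℤ)) ^ 2
  have h1 : range (2 ^ n) ⊆ (range (n + 1)).biUnion fun e =>
      (range (2 ^ (n + 1))).biUnion fun a => B e a := by
    intro s hs
    obtain ⟨e, he, a, ha, hb⟩ := hno s (mem_range.1 hs)
    exact mem_biUnion.2 ⟨e, mem_range.2 he, mem_biUnion.2 ⟨a, mem_range.2 ha,
      mem_filter.2 ⟨hs, hb⟩⟩⟩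
  have h2 : (2 : ℕ) ^ n ≤ ∑ e ∈ range (n + 1), ∑ a ∈ range (2 ^ (n + 1)), (B e a).card := by
    calc (2 : ℕ) ^ n = (range (2 ^ n)).card := (card_range _).symm
      _ ≤ _ := card_le_card h1
      _ ≤ ∑ e ∈ range (n + 1), ((range (2 ^ (n + 1))).biUnion fun a => B e a).card :=
        card_biUnion_le
      _ ≤ _ := sum_le_sum fun e _ => card_biUnion_le
  have h3 : ∀ e a, ((B e a).card : ℝ) ≤
      2 ^ n / 16 * (1 / 4 ^ e) * (gf n (Nat.log 2 a) / 2 ^ Nat.log 2 a) := by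
    intro e a
    have h4 : ((B e a).card : ℝ) * (wt n e a : ℝ) ≤ 4 ^ n := by
      have h := card_bad (f e a) n (wt n e a)
      have h' : (B e a).card * wt n e a ≤ 4 ^ n := h
      exact_mod_cast h'
    have h5 : (wt n e a : ℝ) = (((min (Nat.log 2 a) (n - Nat.log 2 a) : ℕ) : ℝ) + 1) ^ 2 *
        (2 ^ n * 2 ^ Nat.log 2 a * 4 ^ e * 16) := by
      unfold wt
      push_cast
      rw [pow_add, pow_add, pow_add, pow_mul]
      norm_num
    have h6 : (0 : ℝ) < (((min (Nat.log 2 a) (n - Nat.log 2 a) : ℕ) : ℝ) + 1) ^ 2 *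
        (2 ^ n * 2 ^ Nat.log 2 a * 4 ^ e * 16) := by positivity
    rw [h5, ← le_div_iff₀ h6] at h4
    refine h4.trans (le_of_eq ?_)
    have h7 : (4 : ℝ) ^ n = 2 ^ n * 2 ^ n := by
      rw [← mul_pow]
      norm_num
    rw [h7]
    unfold gf
    field_simp
  have h4 : (2 : ℝ) ^ n ≤ ∑ e ∈ range (n + 1), ∑ a ∈ range (2 ^ (n + 1)), ((B e a).card : ℝ) := by
    exact_mod_cast h2
  have h5 : ∑ e ∈ range (n + 1), ∑ a ∈ range (2 ^ (n + 1)), ((B e a).card : ℝ) ≤
      2 ^ n / 16 * (4 / 3) * 5 := by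
    calc _ ≤ ∑ e ∈ range (n + 1), ∑ a ∈ range (2 ^ (n + 1)), 2 ^ n / 16 * (1 / 4 ^ e) *
          (gf n (Nat.log 2 a) / 2 ^ Nat.log 2 a) :=
          sum_le_sum fun e _ => sum_le_sum fun a _ => h3 e a
      _ = 2 ^ n / 16 * (∑ e ∈ range (n + 1), (1 : ℝ) / 4 ^ e) *
          ∑ a ∈ range (2 ^ (n + 1)), (gf n (Nat.log 2 a) / 2 ^ Nat.log 2 a) := by
          rw [mul_sum (range (n + 1)) _ (2 ^ n / 16 : ℝ), sum_mul_sum]
      _ ≤ 2 ^ n / 16 * (4 / 3) * 5 := by
          refine mul_le_mul (mul_le_mul_of_nonneg_left (sum_four _) (by positivity)) ?_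
            (sum_nonneg fun a _ => by
              unfold gf
              positivity) (by positivity)
          rw [sum_adv (gf n) (n + 1)]
          exact sum_gf n
  have h6 : (0 : ℝ) < 2 ^ n := by positivity
  linarith

end Pool.Agent.Helper78.Avg
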