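import Pool.Agent.Helper65.LinSpace.Arith3
import Pool.Agent.Helper65.LinSpace.Tree
import Pool.Agent.Helper65.LinSpace.Bridge

/-!
# Words and numbers
-/

namespace Pool.Agent.Helper78.Avg

open Pool.Agent.Helper65.LinSpace Finset

theorem dig2_lt (m i : ℕ) : dig 2 m i < 2 := dig_lt (by norm_num) _ _

theorem num_pos (w : List Bool) : 0 < num w := by
  induction w with
  | nil => exact Nat.one_pos
  | cons b w ih =>
    show 0 < b.toNat + 2 * num w
    omega

theorem toNat_le_one (b : Bool) : b.toNat ≤ 1 := by cases b <;> simp

theorem log_num (w : List Bool) : Nat.log 2 (num w) = w.length := by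
  induction w with
  | nil => simp [num]
  | cons b w ih =>
    have h1 := num_pos w
    have h2 := toNat_le_one b
    have h3 : num (b :: w) = b.toNat + 2 * num w := rfl
    rw [Nat.log_of_one_lt_of_le (by norm_num) (by rw [h3]; omega), h3]
    have h4 : (b.toNat + 2 * num w) / 2 = num w := by omega
    rw [h4, ih]
    rfl

theorem exists_num {y : ℕ} (hy : 0 < y) : ∃ v : List Bool, num v = y := by
  induction y using Nat.strong_induction_on with
  | _ y ih =>
    rcases Nat.lt_or_ge y 2 with h | h
    · exact ⟨[], by simp only [num]; omega⟩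
    · obtain ⟨v, hv⟩ := ih (y / 2) (by omega) (by omega)
      rcases Nat.mod_two_eq_zero_or_one y with h1 | h1
      · exact ⟨false :: v, by simp only [num, hv, Bool.toNat_false]; omega⟩
      · exact ⟨true :: v, by simp only [num, hv, Bool.toNat_true]; omega⟩

theorem num_injective : Function.Injective num := by
  intro w
  induction w with
  | nil =>
    intro w' h
    cases w' with
    | nil => rfl
    | cons b w' =>
      exfalso
      have h1 := num_pos w'
      have h3 : num (b :: w') = b.toNat + 2 * num w' := rfl
      rw [h3] at h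
      have h4 : num [] = 1 := rfl
      omega
  | cons a w ih =>
    intro w' h
    cases w' with
    | nil =>
      exfalso
      have h1 := num_pos w
      have h3 : num (a :: w) = a.toNat + 2 * num w := rfl
      rw [h3] at h
      have h4 : num [] = 1 := rfl
      omega
    | cons b w' =>
      have h3 : num (b :: w') = b.toNat + 2 * num w' := rfl
      have h4 : num (a :: w) = a.toNat + 2 * num w := rfl
      rw [h3, h4] at h
      have ha := toNat_le_one a
      have hb := toNat_le_one b
      have h5 : num w = num w' := by omega
      have h6 : a.toNat = b.toNat := by omega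
      rw [ih h5]
      congr 1
      cases a <;> cases b <;> simp_all

theorem two_pow_log_le (x k : ℕ) : 2 ^ (k * (Nat.log 2 x + 1)) ≤ (x + 2) ^ (2 * k) := by
  have h : 2 ^ (Nat.log 2 x + 1) ≤ (x + 2) ^ 2 := by
    rcases Nat.eq_zero_or_pos x with h | h
    · subst h
      norm_num
    · have := Nat.pow_log_le_self 2 (show x ≠ 0 by omega)
      rw [pow_succ]
      nlinarith
  rw [mul_comm k, pow_mul, pow_mul]
  exact Nat.pow_le_pow_left h k

/-- The number of the concatenation of the words with numbers `a` and `y`. -/
def catN (a y : ℕ) : ℕ := a - 2 ^ Nat.log 2 a + 2 ^ Nat.log 2 a * y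

theorem num_append (a v : List Bool) : num (a ++ v) = catN (num a) (num v) := by
  unfold catN
  rw [log_num]
  induction a with
  | nil => simp [num]
  | cons b a ih =>
    have h1 : num (b :: (a ++ v)) = b.toNat + 2 * num (a ++ v) := rfl
    have h2 : num (b :: a) = b.toNat + 2 * num a := rfl
    have h3 : 2 ^ a.length ≤ num a := by
      have := Nat.pow_log_le_self 2 (show num a ≠ 0 from (num_pos a).ne')
      rwa [log_num] at this
    rw [List.cons_append, h1, ih, h2, List.length_cons, pow_succ]
    have h4 : 2 ^ a.length * 2 * num v = 2 * (2 ^ a.length * num v) := by ring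
    rw [h4]
    generalize 2 ^ a.length * num v = z
    omega

variable {α : Type} [Ctx α]

@[fun_prop]
theorem LS.pow_log {x : α → ℕ} (hx : LS x) : LS (fun a => 2 ^ Nat.log 2 (x a)) :=
  LS.pow_of_le (f := fun _ => 2) (C := fun z => x z + 1) (LS.const 2) (LS.log2 hx) (by fun_prop)
    fun z => pow_log_le _

@[fun_prop]
theorem LS.pow_log_succ {x : α → ℕ} (hx : LS x) : LS (fun a => 2 ^ (Nat.log 2 (x a) + 1)) := by
  simp only [pow_succ]
  fun_prop

@[fun_prop]
theorem LS.catN {a x : α → ℕ} (ha : LS a) (hx : LS x) : LS (fun z => catN (a z) (x z)) := by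
  unfold Avg.catN
  fun_prop

end Pool.Agent.Helper78.Avg
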