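import Pool.Agent.Helper78.Avg.Cases
import Pool.Agent.Helper65.LinSpace.MainV

/-!
# Average-case hardness for cellular automata with advice
-/

namespace Pool.Agent.Helper78.Avg

open Pool.Agent.Helper65.LinSpace Finset Filter Topology

/-- **Average-case hardness for cellular automata with advice.** -/
theorem ca_main : ∃ (L : Set (List Bool)) (s : ℕ → List Bool), DLINSPACE L ∧
    (∀ n, (s n).length = n) ∧
    (∀ w, w ∈ L ↔ Odd ((List.zipWith and (s w.length) w).count true)) ∧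
    ∀ (d : ℕ) [NeZero d] (A : CA d) (C : ℝ), ∃ c : ℝ, ∀ (n : ℕ) (α : List Bool),
      ∀ M, M = L ∨ M = Lᶜ →
        ({w : List Bool | w.length = n ∧
          (∀ v t, A.config w (α ++ v) t 0 ∈ A.accept → w ∈ M) ∧
          (w ∈ M → ∃ (v : List Bool) (t : ℕ), v.length ≤ n ∧
            (t : ℝ) ≤ C * ((n : ℝ) + 1) ^ (1 + 1 / (d : ℝ)) / Real.log ((n : ℝ) + 2) ^ 3 ∧
            A.config w (α ++ v) t 0 ∈ A.accept)}.ncard : ℝ) ≤
        2 ^ n / 2 + c * ((min α.length (n - α.length) : ℕ) + 1) * 2 ^ (((n : ℝ) + α.length) / 2) := by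
  obtain ⟨L, s, h1, h2, h3, h4⟩ := exists_hard (U := UU 1)
    (LS.app3 fun he ha hx => LS.UU he ha hx 1)
  refine ⟨L, s, h1, h2, h3, fun d _ A C => ?_⟩
  have hd : d ≠ 0 := NeZero.ne d
  obtain ⟨e, n₀, he⟩ := exists_UU A
  obtain ⟨hs, hc⟩ := he 1 le_rfl
  obtain ⟨n₁, hn₁⟩ := eventually_atTop.1 (asymV hd C)
  refine ⟨2 ^ (e + 1 + (n₀ + n₁)), fun n α M hM => ?_⟩
  rcases Nat.lt_or_ge n (n₀ + n₁) with hn | hn
  · exact small_case (e := e) α (fun w hw => hw.1) hn
  · refine large_case α ?_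
    have key : {w : List Bool | w.length = n ∧
          (∀ v t, A.config w (α ++ v) t 0 ∈ A.accept → w ∈ M) ∧
          (w ∈ M → ∃ (v : List Bool) (t : ℕ), v.length ≤ n ∧
            (t : ℝ) ≤ C * ((n : ℝ) + 1) ^ (1 + 1 / (d : ℝ)) / Real.log ((n : ℝ) + 2) ^ 3 ∧
            A.config w (α ++ v) t 0 ∈ A.accept)} ⊆
        {w : List Bool | w.length = n ∧ (UU 1 e (num α) (num w) ≠ 0 ↔ w ∈ M)} := by
      rintro w ⟨hw, hw1, hw2⟩
      refine ⟨hw, fun h => ?_, fun h => ?_⟩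
      · obtain ⟨v, t, hacc⟩ := hs w α h
        exact hw1 v t hacc
      · obtain ⟨v, t, hv, ht, hacc⟩ := hw2 h
        have h5 := hn₁ w.length (by omega)
        rw [← congrFun (C_mul_TT d C) n, ← hw] at ht
        refine hc w α (by omega) v (by omega) t ?_ hacc
        exact_mod_cast ht.trans h5
    refine ncard_le key (fun w hw => hw.1) ?_
    rcases hM with rfl | rfl
    · exact (h4 e n α).1
    · exact (h4 e n α).2

end Pool.Agent.Helper78.Avg
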