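import Pool.Agent.Helper78.Avg.Diag

/-!
# Counting the words on which a device agrees with the language
-/

namespace Pool.Agent.Helper78.Avg

open Pool.Agent.Helper65.LinSpace Finset

theorem num_lt (w : List Bool) : num w < 2 ^ (w.length + 1) := by
  have h := Nat.lt_pow_succ_log_self (b := 2) (by norm_num) (num w)
  rwa [log_num] at h

theorem pow_le_num (w : List Bool) : 2 ^ w.length ≤ num w := by
  have := Nat.pow_log_le_self 2 (show num w ≠ 0 from (num_pos w).ne')
  rwa [log_num] at this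

theorem ncard_words (n : ℕ) (P : ℕ → Prop) [DecidablePred P] :
    {w : List Bool | w.length = n ∧ P (num w)}.ncard =
      ((range (2 ^ n)).filter fun z => P (2 ^ n + z)).card := by
  have h1 : num '' {w : List Bool | w.length = n ∧ P (num w)} =
      ↑(((range (2 ^ n)).filter fun z => P (2 ^ n + z)).image fun z => 2 ^ n + z) := by
    ext y
    simp only [Set.mem_image, Set.mem_ofPred_eq, coe_image, coe_filter, mem_range]
    constructor
    · rintro ⟨w, ⟨hw, hP⟩, rfl⟩
      have h1 := num_lt w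
      have h2 := pow_le_num w
      rw [hw] at h1 h2
      rw [pow_succ] at h1
      have h3 : 2 ^ n + (num w - 2 ^ n) = num w := by omega
      exact ⟨num w - 2 ^ n, ⟨by omega, by rwa [h3]⟩, h3⟩
    · rintro ⟨z, ⟨hz, hP⟩, rfl⟩
      obtain ⟨w, hw⟩ := exists_num (show 0 < 2 ^ n + z by positivity)
      refine ⟨w, ⟨?_, by rwa [hw]⟩, hw⟩
      rw [← log_num, hw]
      exact (Nat.log_eq_iff (Or.inr ⟨by norm_num, by positivity⟩)).2 ⟨by omega, by
        rw [pow_succ]
        omega⟩
  rw [← Set.ncard_image_of_injective _ num_injective, h1, Set.ncard_coe_finset,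
    card_image_of_injective _ fun a b h => by simpa using h]

variable (U : ℕ → ℕ → ℕ → ℕ)

theorem disN_congr {x x' : ℕ} (h : Nat.log 2 x = Nat.log 2 x') (e a s : ℕ) :
    disN U x e a s = disN U x' e a s := by
  unfold disN
  rw [h]

theorem hid_congr {x x' : ℕ} (h : Nat.log 2 x = Nat.log 2 x') : hid U x = hid U x' := by
  have h1 : ∀ e a s, vio U x e a s = vio U x' e a s := fun e a s => by
    unfold vio wtN
    rw [disN_congr U h, h]
  have h2 : ∀ s, badN U x s = badN U x' s := fun s => by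
    unfold badN
    rw [h]
    exact sum_congr rfl fun e _ => sum_congr rfl fun a _ => h1 e a s
  unfold hid
  rw [h]
  simp only [h2]

theorem ip_add (n s z : ℕ) : ip n s (2 ^ n + z) = ip n s z := by
  unfold ip
  refine sum_congr rfl fun i hi => ?_
  have hi' := mem_range.1 hi
  have h : dig 2 (2 ^ n + z) i = dig 2 z i := by
    unfold dig
    obtain ⟨j, hj⟩ := Nat.exists_eq_add_of_lt hi'
    have h1 : 2 ^ n = 2 ^ i * (2 * 2 ^ j) := by
      rw [hj]
      ring
    rw [h1, Nat.mul_add_div (by positivity)]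
    omega
  rw [h]

variable {U}

theorem mem_parL (w : List Bool) :
    w ∈ parL U ↔ ip w.length (hid U (2 ^ w.length)) (num w) % 2 = 1 := by
  unfold parL
  rw [Set.mem_ofPred_eq, hid_congr U (x := num w) (x' := 2 ^ w.length)]
  rw [log_num, Nat.log_pow (by norm_num)]

theorem ne_zero_iff_lt01 (x : ℕ) : x ≠ 0 ↔ lt01 0 x = 1 := by
  unfold lt01
  split_ifs with h
  · exact ⟨fun _ => rfl, fun _ => by omega⟩
  · exact ⟨fun h' => absurd (Nat.pos_of_ne_zero h') h, fun h' => absurd h' (by norm_num)⟩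

/-- The number of agreements and the number of disagreements. -/
theorem agree_add (e a n : ℕ) :
    {w : List Bool | w.length = n ∧ (U e a (num w) ≠ 0 ↔ w ∈ parL U)}.ncard +
      disN U (2 ^ n) e a (hid U (2 ^ n)) = 2 ^ n := by
  classical
  have h1 : {w : List Bool | w.length = n ∧ (U e a (num w) ≠ 0 ↔ w ∈ parL U)} =
      {w : List Bool | w.length = n ∧
        (lt01 0 (U e a (num w)) + ip n (hid U (2 ^ n)) (num w)) % 2 = 0} := by
    ext w
    simp only [Set.mem_ofPred_eq]
    refine and_congr_right fun hw => ?_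
    rw [mem_parL, hw]
    have h2 := ne_zero_iff_lt01 (U e a (num w))
    rw [h2]
    have h3 := lt01_le_one 0 (U e a (num w))
    omega
  rw [h1, ncard_words n fun y => (lt01 0 (U e a y) + ip n (hid U (2 ^ n)) y) % 2 = 0]
  unfold disN
  rw [Nat.log_pow (by norm_num), card_filter, ← sum_add_distrib]
  have h2 : ∀ z ∈ range (2 ^ n), (if (lt01 0 (U e a (2 ^ n + z)) +
      ip n (hid U (2 ^ n)) (2 ^ n + z)) % 2 = 0 then 1 else 0) +
      (lt01 0 (U e a (2 ^ n + z)) + ip n (hid U (2 ^ n)) z) % 2 = 1 := by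
    intro z _
    rw [ip_add]
    split_ifs <;> omega
  rw [sum_congr rfl h2]
  simp

theorem agree_compl (e a n : ℕ) :
    {w : List Bool | w.length = n ∧ (U e a (num w) ≠ 0 ↔ w ∈ (parL U)ᶜ)}.ncard =
      disN U (2 ^ n) e a (hid U (2 ^ n)) := by
  classical
  have h1 : {w : List Bool | w.length = n ∧ (U e a (num w) ≠ 0 ↔ w ∈ (parL U)ᶜ)} =
      {w : List Bool | w.length = n ∧
        (lt01 0 (U e a (num w)) + ip n (hid U (2 ^ n)) (num w)) % 2 = 1} := by
    ext w
    simp only [Set.mem_ofPred_eq, Set.mem_compl_iff]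
    refine and_congr_right fun hw => ?_
    rw [mem_parL, hw]
    have h2 := ne_zero_iff_lt01 (U e a (num w))
    rw [h2]
    have h3 := lt01_le_one 0 (U e a (num w))
    omega
  rw [h1, ncard_words n fun y => (lt01 0 (U e a y) + ip n (hid U (2 ^ n)) y) % 2 = 1]
  unfold disN
  rw [Nat.log_pow (by norm_num), card_filter]
  refine sum_congr rfl fun z _ => ?_
  rw [ip_add]
  split_ifs <;> omega

theorem dis_le (f : ℕ → ℕ) (n s : ℕ) : dis f n s ≤ 2 ^ n := by
  unfold dis
  calc _ ≤ ∑ z ∈ range (2 ^ n), 1 := sum_le_sum fun z _ => by omega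
    _ = _ := by simp

theorem disN_le (e a n s : ℕ) : disN U (2 ^ n) e a s ≤ 2 ^ n := by
  have h := dis_le (fun z => lt01 0 (U e a (2 ^ n + z))) n s
  unfold disN
  rw [Nat.log_pow (by norm_num)]
  exact h

theorem two_le_rpow_half {x : ℝ} (hx : 0 ≤ x) : (1 : ℝ) ≤ 2 ^ x :=
  Real.one_le_rpow (by norm_num) hx

/-- The correlation is small for all devices, all advice and all lengths. -/
theorem abs_dis_le (e n : ℕ) (a : List Bool) :
    |(2 : ℝ) ^ n / 2 - disN U (2 ^ n) e (num a) (hid U (2 ^ n))| ≤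
      2 ^ (e + 1) * ((min a.length (n - a.length) : ℕ) + 1) * 2 ^ (((n : ℝ) + a.length) / 2) := by
  set D := disN U (2 ^ n) e (num a) (hid U (2 ^ n)) with hD
  have hDle : (D : ℝ) ≤ 2 ^ n := by exact_mod_cast disN_le e (num a) n _
  have hD0 : (0 : ℝ) ≤ D := Nat.cast_nonneg _
  have htriv : |(2 : ℝ) ^ n / 2 - D| ≤ 2 ^ n / 2 := by
    rw [abs_le]
    constructor <;> linarith
  have hn0 : (0 : ℝ) ≤ n := Nat.cast_nonneg n
  have hm0 : (0 : ℝ) ≤ a.length := Nat.cast_nonneg _
  have h1 : (1 : ℝ) ≤ 2 ^ (((n : ℝ) + a.length) / 2) := two_le_rpow_half (by positivity)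
  have h2 : (1 : ℝ) ≤ 2 ^ (e + 1) := one_le_pow₀ (by norm_num)
  by_cases hen : n < e
  · have h3 : (2 : ℝ) ^ n ≤ 2 ^ (e + 1) := pow_le_pow_right₀ (by norm_num) (by omega)
    have h4 : (2 : ℝ) ^ (e + 1) * 1 * 1 ≤
        2 ^ (e + 1) * ((min a.length (n - a.length) : ℕ) + 1) * 2 ^ (((n : ℝ) + a.length) / 2) := by
      refine mul_le_mul (mul_le_mul_of_nonneg_left (by linarith) (by positivity)) h1
        (by norm_num) (by positivity)
    have h5 : (0 : ℝ) ≤ 2 ^ n := by positivity
    linarith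
  by_cases ham : n < a.length
  · have h3 : (2 : ℝ) ^ n ≤ 2 ^ (((n : ℝ) + a.length) / 2) := by
      rw [← Real.rpow_natCast 2 n]
      refine Real.rpow_le_rpow_of_exponent_le (by norm_num) ?_
      have : (n : ℝ) ≤ a.length := by exact_mod_cast ham.le
      linarith
    have h4 : 1 * 1 * (2 : ℝ) ^ (((n : ℝ) + a.length) / 2) ≤
        2 ^ (e + 1) * ((min a.length (n - a.length) : ℕ) + 1) * 2 ^ (((n : ℝ) + a.length) / 2) := by
      refine mul_le_mul_of_nonneg_right ?_ (by positivity)
      exact mul_le_mul h2 (by linarith) (by norm_num) (by positivity)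
    have h5 : (0 : ℝ) ≤ 2 ^ n := by positivity
    linarith
  push Not at hen ham
  have hlog : Nat.log 2 (2 ^ n) = n := Nat.log_pow (by norm_num) n
  have hg := hid_good (U := U) (2 ^ n) (e := e) (a := num a) (by omega) (by
    rw [hlog]
    exact lt_of_lt_of_le (num_lt a) (Nat.pow_le_pow_right (by norm_num) (by omega)))
  rw [hlog, ← hD] at hg
  have hg2 : ((2 : ℝ) ^ n - 2 * D) ^ 2 ≤ (wt n e (num a) : ℝ) := by exact_mod_cast hg
  obtain ⟨X, hX⟩ : ∃ X : ℝ, X = 2 ^ (e + 1) * ((min a.length (n - a.length) : ℕ) + 1) * 2 ^ (((n : ℝ) + a.length) / 2) :=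
    ⟨_, rfl⟩
  have hX0 : 0 ≤ X := by
    rw [hX]
    positivity
  have hw : (wt n e (num a) : ℝ) = (2 * X) ^ 2 := by
    unfold wt
    rw [log_num, hX]
    push_cast
    have h3 : ((2 : ℝ) ^ (((n : ℝ) + a.length) / 2)) ^ 2 = 2 ^ (n + a.length) := by
      rw [← Real.rpow_natCast, ← Real.rpow_mul (by norm_num), ← Real.rpow_natCast]
      congr 1
      push_cast
      ring
    have h5 : (2 : ℝ) ^ (n + a.length + 2 * e + 4) =
        2 ^ (n + a.length) * (2 ^ (e + 1)) ^ 2 * 4 := by ring
    rw [h5, ← h3]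
    ring
  rw [← hX]
  rw [hw, sq_le_sq, abs_of_nonneg (show 0 ≤ 2 * X by positivity)] at hg2
  have h4 : (2 : ℝ) ^ n - 2 * D = 2 * (2 ^ n / 2 - D) := by ring
  rw [h4, abs_mul, abs_of_nonneg (show (0 : ℝ) ≤ 2 by norm_num)] at hg2
  linarith

/-- The masks of the parities. -/
def mask : ℕ → ℕ → List Bool
  | 0, _ => []
  | n + 1, h => decide (h % 2 = 1) :: mask n (h / 2)

theorem length_mask (n h : ℕ) : (mask n h).length = n := by
  induction n generalizing h with
  | zero => rfl
  | succ n ih => simp [mask, ih]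

theorem count_mask (w : List Bool) (h : ℕ) :
    (List.zipWith and (mask w.length h) w).count true = ip w.length h (num w) := by
  induction w generalizing h with
  | nil => simp [mask, ip]
  | cons b w ih =>
    have h1 : num (b :: w) = b.toNat + 2 * num w := rfl
    have h2 : num (b :: w) / 2 = num w := by
      have := toNat_le_one b
      omega
    have h3 : dig 2 (num (b :: w)) 0 = b.toNat := by
      have := toNat_le_one b
      rw [dig_zero]
      omega
    rw [List.length_cons, ip_succ, h2, h3, dig_zero, ← ih]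
    show (List.zipWith and (decide (h % 2 = 1) :: mask w.length (h / 2)) (b :: w)).count true = _
    rw [List.zipWith_cons_cons, List.count_cons]
    congr 1
    rcases Nat.mod_two_eq_zero_or_one h with h4 | h4 <;> cases b <;> simp [h4]

/-- **A language in linear space whose slices are parities and which has exponentially small
correlation with all devices of a family with advice.** -/
theorem exists_hard (hU : LS (fun z : ℕ × ℕ × ℕ => U z.1 z.2.1 z.2.2)) :
    ∃ (L : Set (List Bool)) (s : ℕ → List Bool), DLINSPACE L ∧ (∀ n, (s n).length = n) ∧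
      (∀ w, w ∈ L ↔ Odd ((List.zipWith and (s w.length) w).count true)) ∧
      ∀ (e n : ℕ) (a : List Bool),
        |({w : List Bool | w.length = n ∧ (U e (num a) (num w) ≠ 0 ↔ w ∈ L)}.ncard : ℝ) -
          2 ^ n / 2| ≤ 2 ^ (e + 1) * ((min a.length (n - a.length) : ℕ) + 1) * 2 ^ (((n : ℝ) + a.length) / 2) ∧
        |({w : List Bool | w.length = n ∧ (U e (num a) (num w) ≠ 0 ↔ w ∈ Lᶜ)}.ncard : ℝ) -
          2 ^ n / 2| ≤ 2 ^ (e + 1) * ((min a.length (n - a.length) : ℕ) + 1) * 2 ^ (((n : ℝ) + a.length) / 2) := by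
  refine ⟨parL U, fun n => mask n (hid U (2 ^ n)), dlinspace_parL hU, fun n => length_mask _ _,
    fun w => ?_, fun e n a => ?_⟩
  · rw [mem_parL, count_mask, Nat.odd_iff]
  · have h := abs_dis_le (U := U) e n a
    have h1 := agree_add (U := U) e (num a) n
    have h2 : ({w : List Bool | w.length = n ∧
        (U e (num a) (num w) ≠ 0 ↔ w ∈ parL U)}.ncard : ℝ) +
        disN U (2 ^ n) e (num a) (hid U (2 ^ n)) = 2 ^ n := by exact_mod_cast h1
    constructor
    · have h3 : ({w : List Bool | w.length = n ∧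
        (U e (num a) (num w) ≠ 0 ↔ w ∈ parL U)}.ncard : ℝ) - 2 ^ n / 2 =
        2 ^ n / 2 - disN U (2 ^ n) e (num a) (hid U (2 ^ n)) := by linarith
      rw [h3]
      exact h
    · rw [agree_compl, abs_sub_comm]
      exact h

/-- The words which are handled correctly are few, if the device is simulated correctly on the
long words. -/
theorem ncard_le {B : ℝ} {n : ℕ} {S T : Set (List Bool)} (hST : S ⊆ T)
    (hT : T ⊆ {w | w.length = n}) (h : |(T.ncard : ℝ) - 2 ^ n / 2| ≤ B) :
    (S.ncard : ℝ) ≤ 2 ^ n / 2 + B := by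
  have hfin : T.Finite := (List.finite_length_eq Bool n).subset hT
  have h1 : (S.ncard : ℝ) ≤ T.ncard := by exact_mod_cast Set.ncard_le_ncard hST hfin
  have h2 := (abs_le.1 h).2
  linarith

theorem ncard_le_pow {n : ℕ} {S : Set (List Bool)} (hS : S ⊆ {w | w.length = n}) :
    (S.ncard : ℝ) ≤ 2 ^ n := by
  have h1 : {w : List Bool | w.length = n}.ncard = 2 ^ n := by
    have := ncard_words n fun _ => True
    simpa using this
  have h2 := Set.ncard_le_ncard hS (List.finite_length_eq Bool n)
  rw [h1] at h2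
  exact_mod_cast h2

end Pool.Agent.Helper78.Avg
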