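import Pool.Agent.Helper78.Avg.Parseval
import Pool.Agent.Helper78.Avg.Base

/-!
# A diagonal construction hard on average

`U e a y ≠ 0` means that the device `e` with the advice `a` accepts `y`. For every length `n` we
take the first parity which has small correlation with all devices `e ≤ n` with advice of length at
most `n`.
-/

namespace Pool.Agent.Helper78.Avg

open Pool.Agent.Helper65.LinSpace Finset

variable (U : ℕ → ℕ → ℕ → ℕ)

/-- The number of disagreements of a device and a parity on the words of length `log x`. -/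
def disN (x e a s : ℕ) : ℕ :=
  ∑ z ∈ range (2 ^ Nat.log 2 x),
    (lt01 0 (U e a (2 ^ Nat.log 2 x + z)) + ip (Nat.log 2 x) s z) % 2

/-- The bound of the correlation. -/
def wtN (x e a : ℕ) : ℕ := (min (Nat.log 2 a) (Nat.log 2 x - Nat.log 2 a) + 1) ^ 2 *
  2 ^ (Nat.log 2 x + min (Nat.log 2 a) (Nat.log 2 x) + 2 * min e (Nat.log 2 x) + 4)

/-- Nonzero if the correlation is too large. -/
def vio (x e a s : ℕ) : ℕ := lt01 (wtN x e a)
  (((2 ^ Nat.log 2 x - 2 * disN U x e a s) + (2 * disN U x e a s - 2 ^ Nat.log 2 x)) ^ 2)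

/-- The number of devices which have a too large correlation with the parity with index `s`. -/
def badN (x s : ℕ) : ℕ := ∑ e ∈ range (Nat.log 2 x + 1), ∑ a ∈ range (2 ^ (Nat.log 2 x + 1)),
  vio U x e a s

/-- The first good parity. -/
def hid (x : ℕ) : ℕ := ∑ i ∈ range (2 ^ Nat.log 2 x),
  ifz (∑ j ∈ range (i + 1), ifz (badN U x j) 1 0) 1 0

/-- The language. -/
def parL : Set (List Bool) := {w | ip w.length (hid U (num w)) (num w) % 2 = 1}

variable {U}

theorem ifz_le_one (x : ℕ) : ifz x 1 0 ≤ 1 := by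
  unfold ifz
  split_ifs <;> omega

theorem lt01_le_one (x y : ℕ) : lt01 x y ≤ 1 := by
  unfold lt01
  split_ifs <;> omega

theorem hid_spec {x : ℕ} (h : ∃ s < 2 ^ Nat.log 2 x, badN U x s = 0) :
    badN U x (hid U x) = 0 ∧ hid U x < 2 ^ Nat.log 2 x := by
  classical
  obtain ⟨h1, h1'⟩ := Nat.find_spec h
  have h2 : ∀ j < Nat.find h, ifz (badN U x j) 1 0 = 0 := fun j hj => by
    refine ifz_ne (fun h3 => ?_) _ _
    exact Nat.find_min h hj ⟨lt_trans hj h1, h3⟩
  have h3 : hid U x = Nat.find h := by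
    unfold hid
    refine sum_lt_ind h1.le fun i hi => ?_
    by_cases h4 : i < Nat.find h
    · rw [if_pos h4, sum_eq_zero fun j hj => h2 j (by
        have := mem_range.1 hj
        omega)]
      rfl
    · rw [if_neg h4]
      refine ifz_ne (fun h5 => ?_) _ _
      have h6 := sum_eq_zero_iff.1 h5 _ (mem_range.2 (show Nat.find h < i + 1 by omega))
      rw [h1'] at h6
      exact absurd h6 (by simp [ifz])
  rw [h3]
  exact ⟨h1', h1⟩

theorem sq_sub (p q : ℕ) : ((((p - q) + (q - p)) ^ 2 : ℕ) : ℤ) = ((p : ℤ) - q) ^ 2 := by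
  rcases le_total p q with h | h
  · rw [Nat.sub_eq_zero_of_le h, zero_add]
    push_cast [h]
    ring
  · rw [Nat.sub_eq_zero_of_le h, add_zero]
    push_cast [h]
    ring

theorem vio_eq_zero {x e a s : ℕ} (he : e ≤ Nat.log 2 x) (ha : Nat.log 2 a ≤ Nat.log 2 x) :
    vio U x e a s = 0 ↔ (2 ^ Nat.log 2 x - 2 * (disN U x e a s : ℤ)) ^ 2 ≤
      (wt (Nat.log 2 x) e a : ℤ) := by
  have h1 : wtN x e a = wt (Nat.log 2 x) e a := by
    unfold wtN wt
    rw [min_eq_left ha, min_eq_left he]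
  unfold vio
  rw [h1]
  have h2 := sq_sub (2 ^ Nat.log 2 x) (2 * disN U x e a s)
  push_cast at h2
  rw [← h2]
  unfold lt01
  split_ifs with h3
  · simp only [one_ne_zero, false_iff, not_le]
    exact_mod_cast h3
  · simp only [true_iff]
    exact_mod_cast not_lt.1 h3

theorem hid_good (x : ℕ) {e a : ℕ} (he : e ≤ Nat.log 2 x) (ha : a < 2 ^ (Nat.log 2 x + 1)) :
    (2 ^ Nat.log 2 x - 2 * (disN U x e a (hid U x) : ℤ)) ^ 2 ≤ (wt (Nat.log 2 x) e a : ℤ) := by
  have hlog : ∀ a < 2 ^ (Nat.log 2 x + 1), Nat.log 2 a ≤ Nat.log 2 x := by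
    intro a ha
    rcases Nat.eq_zero_or_pos a with h | h
    · rw [h]
      simp
    · have := (Nat.log_lt_iff_lt_pow (b := 2) (by norm_num) (by omega)).2 ha
      omega
  obtain ⟨s, hs, hgood⟩ := exists_good (fun e a z => lt01 0 (U e a (2 ^ Nat.log 2 x + z)))
    (Nat.log 2 x)
  have h1 : badN U x s = 0 := by
    unfold badN
    refine sum_eq_zero fun e he => sum_eq_zero fun a ha => ?_
    have he' := mem_range.1 he
    have ha' := mem_range.1 ha
    exact (vio_eq_zero (by omega) (hlog a ha')).2 (hgood e he' a ha')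
  obtain ⟨h2, _⟩ := hid_spec ⟨s, hs, h1⟩
  unfold badN at h2
  rw [sum_eq_zero_iff] at h2
  have h3 := h2 e (mem_range.2 (by omega))
  rw [sum_eq_zero_iff] at h3
  exact (vio_eq_zero he (hlog a ha)).1 (h3 a (mem_range.2 ha))

/-! ### Linear space -/

section

variable {α : Type} [Ctx α]

@[fun_prop]
theorem LS.ip {n s z : α → ℕ} (hn : LS n) (hs : LS s) (hz : LS z) :
    LS (fun a => ip (n a) (s a) (z a)) := by
  unfold Avg.ip
  refine LS.sum_le (N := n) (B := fun _ => 1) (f := fun a i => dig 2 (s a) i * dig 2 (z a) i)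
    (by fun_prop) hn (LS.const 1) fun a i _ => ?_
  have h1 := dig2_lt (s a) i
  have h2 := dig2_lt (z a) i
  calc _ ≤ 1 * 1 := Nat.mul_le_mul (by omega) (by omega)
    _ = 1 := rfl

theorem LS.disN (hU : LS (fun z : ℕ × ℕ × ℕ => U z.1 z.2.1 z.2.2)) {x e a s : α → ℕ} (hx : LS x)
    (he : LS e) (ha : LS a) (hs : LS s) : LS (fun z => disN U (x z) (e z) (a z) (s z)) := by
  unfold Avg.disN
  refine LS.sum_le (N := fun z => 2 ^ Nat.log 2 (x z)) (B := fun _ => 1)
    (f := fun z i => (lt01 0 (U (e z) (a z) (2 ^ Nat.log 2 (x z) + i)) +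
      Avg.ip (Nat.log 2 (x z)) (s z) i) % 2) ?_ (by fun_prop) (LS.const 1) fun z i _ => ?_
  · have h : LS (fun z : α × ℕ => U (e z.1) (a z.1) (2 ^ Nat.log 2 (x z.1) + z.2)) :=
      LS.comp (g := fun z : ℕ × ℕ × ℕ => U z.1 z.2.1 z.2.2)
        (f := fun z : α × ℕ => (e z.1, a z.1, 2 ^ Nat.log 2 (x z.1) + z.2)) hU (by fun_prop)
    have h2 : LS (fun z : α × ℕ => lt01 0 (U (e z.1) (a z.1) (2 ^ Nat.log 2 (x z.1) + z.2))) :=
      LS.lt01 (LS.const 0) h
    exact LS.mod (LS.add h2 (by fun_prop)) (LS.const 2)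
  · omega

theorem LS.wtN {x e a : α → ℕ} (hx : LS x) (he : LS e) (ha : LS a) :
    LS (fun z => wtN (x z) (e z) (a z)) := by
  unfold Avg.wtN
  refine LS.mul (by fun_prop) ?_
  refine LS.pow_of_le (f := fun _ => 2) (C := fun z => (x z + 2) ^ 8) (LS.const 2) (by fun_prop)
    (by fun_prop) fun z => ?_
  refine le_trans ?_ (two_pow_log_le (x z) 4)
  refine Nat.pow_le_pow_right (by norm_num) ?_
  have h1 := min_le_right (Nat.log 2 (a z)) (Nat.log 2 (x z))
  have h2 := min_le_right (e z) (Nat.log 2 (x z))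
  omega

theorem LS.vio (hU : LS (fun z : ℕ × ℕ × ℕ => U z.1 z.2.1 z.2.2)) {x e a s : α → ℕ} (hx : LS x)
    (he : LS e) (ha : LS a) (hs : LS s) : LS (fun z => vio U (x z) (e z) (a z) (s z)) := by
  unfold Avg.vio
  have h1 := LS.disN hU hx he ha hs
  have h2 := LS.wtN hx he ha
  exact LS.lt01 h2 (LS.pow_const (by fun_prop) 2)

theorem LS.badN (hU : LS (fun z : ℕ × ℕ × ℕ => U z.1 z.2.1 z.2.2)) {x s : α → ℕ} (hx : LS x)
    (hs : LS s) : LS (fun z => badN U (x z) (s z)) := by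
  unfold Avg.badN
  refine LS.sum_le (N := fun z => Nat.log 2 (x z) + 1) (B := fun z => 2 ^ (Nat.log 2 (x z) + 1))
    (f := fun z e => ∑ a ∈ range (2 ^ (Nat.log 2 (x z) + 1)), Avg.vio U (x z) e a (s z))
    ?_ (by fun_prop) (by fun_prop) fun z i _ => ?_
  · refine LS.sum_le (N := fun z : α × ℕ => 2 ^ (Nat.log 2 (x z.1) + 1)) (B := fun _ => 1)
      (f := fun z a => Avg.vio U (x z.1) z.2 a (s z.1)) ?_ (by fun_prop) (LS.const 1)
      fun z i _ => lt01_le_one _ _
    exact LS.vio (α := (α × ℕ) × ℕ) (x := fun z => x z.1.1) (e := fun z => z.1.2)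
      (a := fun z => z.2) (s := fun z => s z.1.1) hU (by fun_prop) (by fun_prop) (by fun_prop)
      (by fun_prop)
  · refine (sum_le_sum fun a _ => lt01_le_one _ _).trans ?_
    simp

theorem LS.hid (hU : LS (fun z : ℕ × ℕ × ℕ => U z.1 z.2.1 z.2.2)) {x : α → ℕ} (hx : LS x) :
    LS (fun z => hid U (x z)) := by
  unfold Avg.hid
  refine LS.sum_le (N := fun z => 2 ^ Nat.log 2 (x z)) (B := fun _ => 1)
    (f := fun z i => ifz (∑ j ∈ range (i + 1), ifz (Avg.badN U (x z) j) 1 0) 1 0) ?_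
    (by fun_prop) (LS.const 1) fun z i _ => ifz_le_one _
  refine LS.ifz ?_ (LS.const 1) (LS.const 0)
  refine LS.sum_le (N := fun z : α × ℕ => z.2 + 1) (B := fun _ => 1)
    (f := fun z j => ifz (Avg.badN U (x z.1) j) 1 0) ?_ (by fun_prop) (LS.const 1)
    fun z i _ => ifz_le_one _
  exact LS.ifz (LS.badN (α := (α × ℕ) × ℕ) (x := fun z => x z.1.1) (s := fun z => z.2) hU
    (by fun_prop) (by fun_prop)) (LS.const 1) (LS.const 0)

end

theorem dlinspace_parL (hU : LS (fun z : ℕ × ℕ × ℕ => U z.1 z.2.1 z.2.2)) :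
    DLINSPACE (parL U) := by
  refine LS.dlinspace (F := fun x => ip (Nat.log 2 x) (hid U x) x % 2) ?_ _ ?_
  · have h := LS.hid hU (x := fun x : ℕ => x) LS.id
    exact LS.mod (LS.ip (by fun_prop) h LS.id) (LS.const 2)
  · intro w
    show ip w.length (hid U (num w)) (num w) % 2 = 1 ↔ _
    rw [log_num]
    omega

end Pool.Agent.Helper78.Avg
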