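import Pool.Agent.Helper78.Avg.Cases
import Pool.Agent.Helper78.Mpc.MMain

/-!
# Average-case hardness for massively parallel computation with advice
-/

namespace Pool.Agent.Helper78.Avg

open Pool.Agent.Helper65.LinSpace Pool.Agent.Helper78.Mpc Finset Filter Topology

variable {α : Type} [Ctx α]

/-- The number of accepting guesses and rounds, with advice. -/
def UMA (c e a x : ℕ) : ℕ :=
  ∑ y ∈ range (2 ^ (c * Nat.log 2 x + 1)), ∑ r ∈ range (RR (Nat.log 2 x) + 1), lt01 0 y *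
    accN (simM (Nat.unpair e).1 (Nat.unpair (Nat.unpair e).2).1
      (Nat.unpair (Nat.unpair (Nat.unpair e).2).2).1
      (Nat.unpair (Nat.unpair (Nat.unpair (Nat.unpair e).2).2).2).1
      (Nat.unpair (Nat.unpair (Nat.unpair (Nat.unpair e).2).2).2).2 x (catN a y) r)

theorem LS.UMA (c : ℕ) {e b x : α → ℕ} (he : LS e) (hb : LS b) (hx : LS x) :
    LS (fun a => UMA c (e a) (b a) (x a)) := by
  have hcat : LS (fun z : (α × ℕ) × ℕ => Avg.catN (b z.1.1) z.1.2) := by fun_prop
  have hsim : LS (fun z : (α × ℕ) × ℕ => Mpc.simM (Nat.unpair (e z.1.1)).1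
      (Nat.unpair (Nat.unpair (e z.1.1)).2).1
      (Nat.unpair (Nat.unpair (Nat.unpair (e z.1.1)).2).2).1
      (Nat.unpair (Nat.unpair (Nat.unpair (Nat.unpair (e z.1.1)).2).2).2).1
      (Nat.unpair (Nat.unpair (Nat.unpair (Nat.unpair (e z.1.1)).2).2).2).2 (x z.1.1)
      (Avg.catN (b z.1.1) z.1.2) z.2) :=
    Mpc.LS.simM (by fun_prop) (by fun_prop) (by fun_prop) (by fun_prop) (by fun_prop)
      (by fun_prop) hcat (by fun_prop)
  have hacc : LS (fun z : (α × ℕ) × ℕ => lt01 0 z.1.2 * accN (Mpc.simM (Nat.unpair (e z.1.1)).1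
      (Nat.unpair (Nat.unpair (e z.1.1)).2).1
      (Nat.unpair (Nat.unpair (Nat.unpair (e z.1.1)).2).2).1
      (Nat.unpair (Nat.unpair (Nat.unpair (Nat.unpair (e z.1.1)).2).2).2).1
      (Nat.unpair (Nat.unpair (Nat.unpair (Nat.unpair (e z.1.1)).2).2).2).2
      (x z.1.1) (Avg.catN (b z.1.1) z.1.2) z.2)) := by
    unfold accN
    exact LS.mul (by fun_prop) (LS.mul (LS.lt01 (LS.const 1) hsim) (LS.mod hsim (LS.const 2)))
  have hle : ∀ (a : α) (y r : ℕ), lt01 0 y * accN (Mpc.simM (Nat.unpair (e a)).1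
      (Nat.unpair (Nat.unpair (e a)).2).1
      (Nat.unpair (Nat.unpair (Nat.unpair (e a)).2).2).1
      (Nat.unpair (Nat.unpair (Nat.unpair (Nat.unpair (e a)).2).2).2).1
      (Nat.unpair (Nat.unpair (Nat.unpair (Nat.unpair (e a)).2).2).2).2 (x a)
      (Avg.catN (b a) y) r) ≤ 1 := by
    intro a y r
    calc _ ≤ 1 * 1 := Nat.mul_le_mul (lt01_le_one _ _) (accN_le _)
      _ = 1 := rfl
  unfold Avg.UMA
  refine LS.sum_le (N := fun a => 2 ^ (c * Nat.log 2 (x a) + 1))
    (B := fun a => (Mpc.RR (Nat.log 2 (x a)) + 1) * 1) (f := fun a y =>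
      ∑ r ∈ range (Mpc.RR (Nat.log 2 (x a)) + 1), lt01 0 y *
    accN (Mpc.simM (Nat.unpair (e a)).1 (Nat.unpair (Nat.unpair (e a)).2).1
      (Nat.unpair (Nat.unpair (Nat.unpair (e a)).2).2).1
      (Nat.unpair (Nat.unpair (Nat.unpair (Nat.unpair (e a)).2).2).2).1
      (Nat.unpair (Nat.unpair (Nat.unpair (Nat.unpair (e a)).2).2).2).2 (x a)
      (Avg.catN (b a) y) r)) ?_ ?_ (by fun_prop) ?_
  · exact LS.sum_le (α := α × ℕ) (N := fun z => Mpc.RR (Nat.log 2 (x z.1)) + 1) (B := fun _ => 1)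
      (f := fun z r => lt01 0 z.2 * accN (Mpc.simM (Nat.unpair (e z.1)).1
      (Nat.unpair (Nat.unpair (e z.1)).2).1
      (Nat.unpair (Nat.unpair (Nat.unpair (e z.1)).2).2).1
      (Nat.unpair (Nat.unpair (Nat.unpair (Nat.unpair (e z.1)).2).2).2).1
      (Nat.unpair (Nat.unpair (Nat.unpair (Nat.unpair (e z.1)).2).2).2).2 (x z.1)
      (Avg.catN (b z.1) z.2) r))
      hacc (by fun_prop) (by fun_prop) (fun z r _ => hle z.1 z.2 r)
  · refine LS.pow_of_le (f := fun _ => 2) (g := fun a => c * Nat.log 2 (x a) + 1)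
      (C := fun a => (x a + 2) ^ (2 * (c + 1))) (by fun_prop) (by fun_prop) (by fun_prop)
      fun a => ?_
    refine le_trans ?_ (two_pow_log_le (x a) (c + 1))
    refine Nat.pow_le_pow_right (by norm_num) ?_
    ring_nf
    omega
  · intro a y _
    refine (sum_le_sum (g := fun _ => 1) fun r _ => hle a y r).trans ?_
    simp

/-- Every algorithm has a code. -/
theorem exists_UMA (A : MPC) (k c : ℕ) : ∃ e n₀ : ℕ, ∀ w a : List Bool, n₀ ≤ w.length →
    (UMA c e (num a) (num w) ≠ 0 → ∃ y r, A.AcceptsAt ((w.length + 2) ^ k) w (a ++ y) r) ∧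
    ∀ y r, y.length ≤ c * w.length → r ≤ RR w.length →
      A.Fits ((w.length + 2) ^ k) w (a ++ y) r (SS w.length) →
      A.AcceptsAt ((w.length + 2) ^ k) w (a ++ y) r → UMA c e (num a) (num w) ≠ 0 := by
  obtain ⟨eM, cM, hM⟩ := fnN_spec A.msg_lin
  obtain ⟨eU, cU, hU⟩ := fnN_spec A.upd_lin
  obtain ⟨B0, ini, hini⟩ := exists_ini A.init
  obtain ⟨n₀, hn₀⟩ := eventually_atTop.1 (ev_cond (cM + cU) k)
  refine ⟨Nat.pair eM (Nat.pair eU (Nat.pair k (Nat.pair ini B0))), n₀, fun w a hw => ?_⟩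
  obtain ⟨h1, h2, h3⟩ := hn₀ w.length hw
  have hlog := log_num w
  set n := w.length with hn
  have hB : 2 ^ (SS n + 1) ≤ CM (num w) := by
    refine two_pow_le_CM ?_
    rw [hlog]
    have : SS n ≤ n := Nat.div_le_self _ _
    omega
  have hgood : ∀ (f : List Bool → List Bool) (e c' : ℕ), c' ≤ cM + cU →
      (∀ (w : List Bool) (S Λ β B : ℕ), c' * (S + w.length + 2) ≤ Λ →
        c' + Λ + S + w.length + 1 ≤ β → 2 ^ (S + 1) ≤ B →
        fnN e S Λ β B (num w) = if (f w).length ≤ S then num (f w) else 0) →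
      Good f e (SS n) (LW n) (2 ^ (2 * ll n)) (CM (num w)) (SS n + 4 * la n + 2) := by
    intro f e c' hc' hf u hu
    refine hf u _ _ _ _ ?_ ?_ hB
    · refine le_trans ?_ h2
      exact Nat.mul_le_mul hc' (by omega)
    · omega
  have hmsg := hgood A.msg eM cM (by omega) hM
  have hupd := hgood A.upd eU cU (by omega) hU
  have hcap : capPow (n + 2) k (CM (num w)) = (n + 2) ^ k := by
    have := two_pow_la_le (num w)
    rw [hlog] at this
    rw [capPow, min_eq_left (by omega)]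
  have hroot : packL (2 ^ la n) 0 0 0 = 0 := by simp [packL]
  have key : ∀ (y : List Bool) (r : ℕ), r ≤ RR n →
      (simM eM eU k ini B0 (num w) (num y) r ≠ 0 →
        simM eM eU k ini B0 (num w) (num y) r = num (A.mem ((n + 2) ^ k) w y r 0)) ∧
      (A.Fits ((n + 2) ^ k) w y r (SS n) →
        simM eM eU k ini B0 (num w) (num y) r = num (A.mem ((n + 2) ^ k) w y r 0)) := by
    intro y r hr
    have h := VV_mem (A := A) (w := w) (y := y) (m := (n + 2) ^ k) hmsg hupd le_rfl h1 hini r 0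
      (by positivity)
    rw [hroot] at h
    have hm0 : 0 < (n + 2) ^ k := Nat.pow_pos (by omega)
    have e : simM eM eU k ini B0 (num w) (num y) r = VV eM eU (SS n) (LW n) (2 ^ (2 * ll n))
        (CM (num w)) ((n + 2) ^ k) (la n) ini B0 (num w) (num y) (r * (la n + 2)) 0 := by
      unfold simM
      rw [hlog, min_eq_left hr, hcap]
    rw [e]
    generalize VV eM eU (SS n) (LW n) (2 ^ (2 * ll n))
        (CM (num w)) ((n + 2) ^ k) (la n) ini B0 (num w) (num y) (r * (la n + 2)) 0 = X at h ⊢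
    exact ⟨h.1, fun hf => h.2 hf hm0⟩
  unfold UMA
  simp only [Nat.unpair_pair]
  rw [hlog]
  constructor
  · intro hne
    rw [Ne, sum_eq_zero_iff] at hne
    push Not at hne
    obtain ⟨y, _, hne⟩ := hne
    rw [Ne, sum_eq_zero_iff] at hne
    push Not at hne
    obtain ⟨r, hr, hne⟩ := hne
    rw [mem_range] at hr
    have hy0 : 0 < y := by
      by_contra h
      apply hne
      rw [lt01, if_neg h, zero_mul]
    obtain ⟨v, rfl⟩ := exists_num hy0
    rw [← num_append] at hne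
    have hacc : accN (simM eM eU k ini B0 (num w) (num (a ++ v)) r) ≠ 0 := by
      intro h
      apply hne
      rw [h, mul_zero]
    have hs0 : simM eM eU k ini B0 (num w) (num (a ++ v)) r ≠ 0 := by
      intro h
      apply hacc
      rw [h]
      rfl
    rw [(key (a ++ v) r (by omega)).1 hs0] at hacc
    refine ⟨v, r, (accN_num _).1 ?_⟩
    have := accN_le (num (A.mem ((n + 2) ^ k) w (a ++ v) r 0))
    omega
  · intro y r hy hr hfit hacc
    have hval := (key (a ++ y) r hr).2 hfit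
    have hacc1 : accN (simM eM eU k ini B0 (num w) (num (a ++ y)) r) = 1 := by
      rw [hval]
      exact (accN_num _).2 hacc
    intro h0
    rw [sum_eq_zero_iff] at h0
    have hy1 : num y ∈ range (2 ^ (c * n + 1)) := by
      rw [mem_range]
      have h4 := Nat.lt_pow_succ_log_self (b := 2) (by norm_num) (num y)
      rw [log_num] at h4
      exact lt_of_lt_of_le h4 (Nat.pow_le_pow_right (by norm_num) (by omega))
    have h5 := h0 (num y) hy1
    rw [sum_eq_zero_iff] at h5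
    have h6 := h5 r (mem_range.2 (by omega))
    rw [← num_append, hacc1, lt01, if_pos (num_pos y)] at h6
    omega

/-- **Average-case hardness for massively parallel computation with advice.** -/
theorem mpc_main (c : ℕ) : ∃ (L : Set (List Bool)) (s : ℕ → List Bool), DLINSPACE L ∧
    (∀ n, (s n).length = n) ∧
    (∀ w, w ∈ L ↔ Odd ((List.zipWith and (s w.length) w).count true)) ∧
    ∀ (A : MPC) (k : ℕ) (C ε : ℝ), 0 < ε → ∃ c' : ℝ, ∀ (n : ℕ) (α : List Bool),
      ∀ M, M = L ∨ M = Lᶜ →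
        ({w : List Bool | w.length = n ∧
          (∀ v r, A.AcceptsAt ((n + 2) ^ k) w (α ++ v) r → w ∈ M) ∧
          (w ∈ M → ∃ (v : List Bool) (r : ℕ), v.length ≤ c * n ∧
            (r : ℝ) ≤ C * ((n : ℝ) + 1) ^ (1 - ε) ∧
            A.Fits ((n + 2) ^ k) w (α ++ v) r (C * ((n : ℝ) + 1) ^ (1 - ε)) ∧
            A.AcceptsAt ((n + 2) ^ k) w (α ++ v) r)}.ncard : ℝ) ≤
        2 ^ n / 2 + c' * ((min α.length (n - α.length) : ℕ) + 1) * 2 ^ (((n : ℝ) + α.length) / 2) := by
  obtain ⟨L, s, h1, h2, h3, h4⟩ := exists_hard (U := UMA c)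
    (LS.app3 fun he ha hx => LS.UMA c he ha hx)
  refine ⟨L, s, h1, h2, h3, fun A k C ε hε => ?_⟩
  obtain ⟨e, n₀, he⟩ := exists_UMA A k c
  obtain ⟨n₁, hn₁⟩ := eventually_atTop.1 (ev_RR hε C)
  refine ⟨2 ^ (e + 1 + (n₀ + n₁)), fun n α M hM => ?_⟩
  rcases Nat.lt_or_ge n (n₀ + n₁) with hn | hn
  · exact small_case (e := e) α (fun w hw => hw.1) hn
  · refine large_case α ?_
    have key : {w : List Bool | w.length = n ∧
          (∀ v r, A.AcceptsAt ((n + 2) ^ k) w (α ++ v) r → w ∈ M) ∧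
          (w ∈ M → ∃ (v : List Bool) (r : ℕ), v.length ≤ c * n ∧
            (r : ℝ) ≤ C * ((n : ℝ) + 1) ^ (1 - ε) ∧
            A.Fits ((n + 2) ^ k) w (α ++ v) r (C * ((n : ℝ) + 1) ^ (1 - ε)) ∧
            A.AcceptsAt ((n + 2) ^ k) w (α ++ v) r)} ⊆
        {w : List Bool | w.length = n ∧ (UMA c e (num α) (num w) ≠ 0 ↔ w ∈ M)} := by
      rintro w ⟨hw, hw1, hw2⟩
      obtain ⟨hs, hc⟩ := he w α (by omega)
      refine ⟨hw, fun h => ?_, fun h => ?_⟩
      · obtain ⟨v, r, hacc⟩ := hs h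
        rw [hw] at hacc
        exact hw1 v r hacc
      · obtain ⟨v, r, hv, hr, hfit, hacc⟩ := hw2 h
        have h5 := hn₁ n (by omega)
        rw [← hw] at hv hr hfit hacc h5
        refine hc v r hv ?_ (Fits_mono ?_ hfit) hacc
        · exact_mod_cast hr.trans h5
        · refine h5.trans ?_
          exact_mod_cast RR_le_SS w.length
    refine ncard_le key (fun w hw => hw.1) ?_
    rcases hM with rfl | rfl
    · exact (h4 e n α).1
    · exact (h4 e n α).2

end Pool.Agent.Helper78.Avg
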