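import Pool.Agent.Helper78.Avg.Cases
import Pool.Agent.Helper78.Xor.Main

/-!
# Average-case hardness for circuits with few nonlinear gates with advice
-/

namespace Pool.Agent.Helper78.Avg

open Pool.Agent.Helper65.LinSpace Pool.Agent.Helper78.Mpc Pool.Agent.Helper78.Xor
open Finset Filter Topology

variable {α : Type} [Ctx α]

/-- The output of the circuit with code `e`. -/
def outE (c e x y : ℕ) : ℕ :=
  outX c (Nat.unpair e).1 (Nat.unpair (Nat.unpair e).2).1
    (Nat.unpair (Nat.unpair (Nat.unpair e).2).2).1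
    (Nat.unpair (Nat.unpair (Nat.unpair (Nat.unpair e).2).2).2).1
    (Nat.unpair (Nat.unpair (Nat.unpair (Nat.unpair (Nat.unpair e).2).2).2).2).1
    (Nat.unpair (Nat.unpair (Nat.unpair (Nat.unpair (Nat.unpair (Nat.unpair e).2).2).2).2).2).1
    (Nat.unpair (Nat.unpair (Nat.unpair (Nat.unpair (Nat.unpair (Nat.unpair e).2).2).2).2).2).2
    (Nat.log 2 x) x y

theorem LS.outE (c : ℕ) {e x y : α → ℕ} (he : LS e) (hx : LS x) (hy : LS y) :
    LS (fun a => outE c (e a) (x a) (y a)) := by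
  unfold Avg.outE
  exact Xor.LS.outX c (e1 := fun z => (Nat.unpair (e z)).1)
      (e2 := fun z => (Nat.unpair (Nat.unpair (e z)).2).1)
      (e3 := fun z => (Nat.unpair (Nat.unpair (Nat.unpair (e z)).2).2).1)
      (e4 := fun z => (Nat.unpair (Nat.unpair (Nat.unpair (Nat.unpair (e z)).2).2).2).1)
      (k := fun z => (Nat.unpair (Nat.unpair (Nat.unpair (Nat.unpair
        (Nat.unpair (e z)).2).2).2).2).1)
      (m := fun z => (Nat.unpair (Nat.unpair (Nat.unpair (Nat.unpair (Nat.unpair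
        (Nat.unpair (e z)).2).2).2).2).2).1)
      (a := fun z => (Nat.unpair (Nat.unpair (Nat.unpair (Nat.unpair (Nat.unpair
        (Nat.unpair (e z)).2).2).2).2).2).2)
      (x := x) (y := y) (by fun_prop) (by fun_prop) (by fun_prop)
      (by fun_prop) (by fun_prop) (by fun_prop) (by fun_prop) hx hy

/-- Every family of circuits has a code. -/
theorem exists_outE (F : Circ) (c k m a : ℕ) (hm : 2 ≤ m) {C ε : ℝ} (hε : 0 < ε)
    (hcard : ∀ n : ℕ, open Classical in
      (((Finset.range ((n + 2) ^ k)).filter fun g => w2 n g ∈ F.nonlin).card : ℝ) ≤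
        C * ((n : ℝ) + 1) ^ (2 - ε)) : ∃ e n₀ : ℕ, ∀ w : List Bool, n₀ ≤ w.length →
    ∀ y : List Bool, y.length = c * w.length → outE c e (num w) (num y) =
      F.vals (m * (w.length + 2) ^ a) w y ((w.length + 2) ^ k) ((w.length + 2) ^ k - 1) := by
  classical
  obtain ⟨e1, c1, hu1⟩ := univ_spec F.nonlin_lin
  obtain ⟨e2, c2, hu2⟩ := univ_spec F.left_lin
  obtain ⟨e3, c3, hu3⟩ := univ_spec F.right_lin
  obtain ⟨e4, c4, hu4⟩ := univ_spec F.op_lin
  obtain ⟨n₀, hn₀⟩ := eventually_atTop.1 (ev_condX c k m a (c1 + c2 + c3 + c4) hε C)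
  refine ⟨Nat.pair e1 (Nat.pair e2 (Nat.pair e3 (Nat.pair e4 (Nat.pair k (Nat.pair m a))))), n₀,
    fun w hw => ?_⟩
  obtain ⟨b1, b2, b3, b4, b5, b6⟩ := hn₀ w.length hw
  have hlog := log_num w
  have hcard' := hcard w.length
  obtain ⟨n, hn⟩ : ∃ n, w.length = n := ⟨_, rfl⟩
  rw [hn] at b1 b2 b3 b4 b5 b6 hlog hcard' ⊢
  obtain ⟨N, hN⟩ : ∃ N, (n + 2) ^ k = N := ⟨_, rfl⟩
  obtain ⟨q, hq⟩ : ∃ q, m * (n + 2) ^ a = q := ⟨_, rfl⟩
  have hN0 : 0 < N := by
    rw [← hN]
    exact Nat.pow_pos (by omega)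
  have ha0 : 0 < (n + 2) ^ a := Nat.pow_pos (by omega)
  have hq2 : 2 ≤ q := by
    rw [← hq]
    calc 2 ≤ m * 1 := by omega
      _ ≤ m * (n + 2) ^ a := Nat.mul_le_mul_left _ ha0
  have hCX : 2 ^ la n ≤ CX (num w) := by
    have := la_b5 (num w)
    rwa [hlog] at this
  have hcapN : capPow (n + 2) k (CX (num w)) = N := by
    rw [capPow, min_eq_left (by omega), hN]
  have hcapQ : QX m a n (num w) = q := by
    have h1 : (n + 2) ^ a ≤ m * (n + 2) ^ a := Nat.le_mul_of_pos_left _ (by omega)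
    unfold QX
    rw [capPow, min_eq_left (show (n + 2) ^ a ≤ CX (num w) + 1 by omega), min_eq_left b2, hq,
      max_eq_right (by omega)]
  rw [hN] at b1
  rw [hq] at b2
  rw [hN] at hcard'
  have hcond : ∀ c' ≤ c1 + c2 + c3 + c4, ∀ v : List Bool, v.length ≤ 7 * la n + 3 →
      c' * (v.length + 1) ≤ LW n ∧ c' + LW n + v.length ≤ 2 ^ (2 * ll n) := by
    intro c' hc' v hv
    constructor
    · refine le_trans ?_ b4
      exact Nat.mul_le_mul hc' (by omega)
    · omega
  have hnlt : n < 2 ^ la n := lt_of_le_of_lt (Nat.le_add_right _ _) b3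
  have g1 : ∀ g < N, univ e1 (LW n) (2 ^ (2 * ll n)) (w2N n g) = 1 ↔ w2 n g ∈ F.nonlin := by
    intro g hg
    rw [w2N_eq]
    obtain ⟨h1, h2⟩ := hcond c1 (by omega) (w2 n g) (length_w2 hnlt (by omega))
    exact hu1 _ _ _ h1 h2
  have g2 : ∀ g < N, ∀ h < g, univ e2 (LW n) (2 ^ (2 * ll n)) (w3N n g h) = 1 ↔
      w3 n g h ∈ F.left := by
    intro g hg h hh
    rw [w3N_eq]
    obtain ⟨h1, h2⟩ := hcond c2 (by omega) (w3 n g h) (length_w3 hnlt (by omega) (by omega))
    exact hu2 _ _ _ h1 h2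
  have g3 : ∀ g < N, ∀ h < g, univ e3 (LW n) (2 ^ (2 * ll n)) (w3N n g h) = 1 ↔
      w3 n g h ∈ F.right := by
    intro g hg h hh
    rw [w3N_eq]
    obtain ⟨h1, h2⟩ := hcond c3 (by omega) (w3 n g h) (length_w3 hnlt (by omega) (by omega))
    exact hu3 _ _ _ h1 h2
  have g4 : ∀ g < N, ∀ s < q, ∀ t < q, univ e4 (LW n) (2 ^ (2 * ll n)) (w4N n g s t) = 1 ↔
      w4 n g s t ∈ F.op := by
    intro g hg s hs t ht
    rw [w4N_eq]
    obtain ⟨h1, h2⟩ := hcond c4 (by omega) (w4 n g s t)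
      (length_w4 hnlt (by omega) (by omega) (by omega))
    exact hu4 _ _ _ h1 h2
  have hrank : rankN (nlF e1 (LW n) (2 ^ (2 * ll n)) n (n + c * n) N) N ≤ RR n * RR n := by
    have h1 : rankN (nlF e1 (LW n) (2 ^ (2 * ll n)) n (n + c * n) N) N ≤
        ((Finset.range N).filter fun g => w2 n g ∈ F.nonlin).card := by
      rw [card_filter]
      refine sum_le_sum fun g hg => ?_
      rw [mem_range] at hg
      split_ifs with h2
      · exact nlF_le _ _ _ _ _ _ _
      · have h3 : univ e1 (LW n) (2 ^ (2 * ll n)) (w2N n g) = 0 := by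
          have := univ_lt e1 (LW n) (2 ^ (2 * ll n)) (w2N n g)
          by_contra h3
          exact h2 ((g1 g hg).1 (by omega))
        unfold nlF
        rw [h3, mul_zero, mul_zero]
    have h2 := hcard'.trans b6
    have h3 : ((Finset.range N).filter fun g => w2 n g ∈ F.nonlin).card ≤ RR n * RR n := by
      exact_mod_cast h2
    exact h1.trans h3
  have key : ∀ y : List Bool, y.length = c * n →
      outX c e1 e2 e3 e4 k m a n (num w) (num y) = F.vals q w y N (N - 1) := by
    intro y hy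
    have hV := isVal (F := F) (x := w) (y := y) (c := c) (n := n) (N := N) (q := q)
      (lam := la n) hn hy g1 g2 g3 g4 (by omega) b1
    unfold outX outG
    rw [hcapN, hcapQ]
    have hRR : RR n ≤ 2 ^ la n := by
      have : RR n ≤ n := Nat.div_le_self _ _
      omega
    have hop : ∀ r s t, opR (la n) (nlF e1 (LW n) (2 ^ (2 * ll n)) n (n + c * n) N)
        (opF e4 (LW n) (2 ^ (2 * ll n)) n) r s t < 2 := fun r s t => opF_lt _ _ _ _ _ _ _
    have hcap : 2 ^ RR n ≤ CX (num w) := by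
      have := RR_b1 (num w)
      rwa [hlog] at this
    rw [out_eq hV (by omega) b2 b1 hN0 b3]
    · have h1 : gV F q w y (n + c * n) N (N - 1) = gv F q w y (N - 1) :=
        if_pos (Or.inl (by omega))
      have h2 : F.vals q w y N (N - 1) = gv F q w y (N - 1) := by
        have := vals_eq F q w y (N - 1) 0
        rwa [add_zero, Nat.sub_add_cancel hN0] at this
      rw [h1, h2]
      exact Nat.mod_eq_of_lt (gv_lt F q w y hq2 _)
    · intro r hr
      rw [V_nth hV (by omega) b2 b1 r hr]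
      unfold sigX
      refine VX_sig hop (by omega) ?_ (RR_le_LX n) hcap hRR le_rfl (lt_of_lt_of_le hr hrank)
      rw [← hcapQ]
      exact QX_pow m a n (num w)
  intro y hy
  unfold outE
  simp only [Nat.unpair_pair]
  rw [hlog, hq, hN]
  exact key y hy

/-- The number of accepting guesses, with advice. -/
def UXA (c e a x : ℕ) : ℕ :=
  ∑ y ∈ range (2 ^ (c * Nat.log 2 x + 1)), lt01 0 y *
    (eq01 (Nat.log 2 (catN a y)) (c * Nat.log 2 x) * eq01 (outE c e x (catN a y)) 1)

theorem LS.UXA (c : ℕ) {e b x : α → ℕ} (he : LS e) (hb : LS b) (hx : LS x) :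
    LS (fun a => UXA c (e a) (b a) (x a)) := by
  have hcat : LS (fun z : α × ℕ => Avg.catN (b z.1) z.2) := by fun_prop
  have hout : LS (fun z : α × ℕ => Avg.outE c (e z.1) (x z.1) (Avg.catN (b z.1) z.2)) :=
    LS.outE c (by fun_prop) (by fun_prop) hcat
  unfold Avg.UXA
  refine LS.sum_le (N := fun a => 2 ^ (c * Nat.log 2 (x a) + 1)) (B := fun _ => 1)
    (f := fun z y => lt01 0 y * (eq01 (Nat.log 2 (Avg.catN (b z) y)) (c * Nat.log 2 (x z)) *
      eq01 (Avg.outE c (e z) (x z) (Avg.catN (b z) y)) 1)) ?_ ?_ (by fun_prop) ?_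
  · exact LS.mul (by fun_prop) (LS.mul (LS.eq01 (LS.log2 hcat) (by fun_prop))
      (LS.eq01 hout (LS.const 1)))
  · refine LS.pow_of_le (f := fun _ => 2) (g := fun a => c * Nat.log 2 (x a) + 1)
      (C := fun a => (x a + 2) ^ (2 * (c + 1))) (by fun_prop) (by fun_prop) (by fun_prop)
      fun a => ?_
    refine le_trans ?_ (two_pow_log_le (x a) (c + 1))
    refine Nat.pow_le_pow_right (by norm_num) ?_
    ring_nf
    omega
  · intro z y _
    calc _ ≤ 1 * (1 * 1) := Nat.mul_le_mul (lt01_le_one _ _)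
            (Nat.mul_le_mul (eq01_le _ _) (eq01_le _ _))
      _ = 1 := rfl

/-- Every family of circuits has a code. -/
theorem exists_UXA (F : Circ) (c k m a : ℕ) (hm : 2 ≤ m) {C ε : ℝ} (hε : 0 < ε)
    (hcard : ∀ n : ℕ, open Classical in
      (((Finset.range ((n + 2) ^ k)).filter fun g => w2 n g ∈ F.nonlin).card : ℝ) ≤
        C * ((n : ℝ) + 1) ^ (2 - ε)) : ∃ e n₀ : ℕ, ∀ w b : List Bool, n₀ ≤ w.length →
    (UXA c e (num b) (num w) ≠ 0 ↔ ∃ v : List Bool, (b ++ v).length = c * w.length ∧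
      F.vals (m * (w.length + 2) ^ a) w (b ++ v) ((w.length + 2) ^ k)
        ((w.length + 2) ^ k - 1) = 1) := by
  obtain ⟨e, n₀, he⟩ := exists_outE F c k m a hm hε hcard
  refine ⟨e, n₀, fun w b hw => ?_⟩
  have key := he w hw
  have hlog := log_num w
  generalize w.length = n at key hlog ⊢
  unfold UXA
  rw [hlog]
  constructor
  · intro hne
    rw [Ne, sum_eq_zero_iff] at hne
    push Not at hne
    obtain ⟨y, _, hne⟩ := hne
    have hy0 : 0 < y := by
      by_contra h
      apply hne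
      rw [lt01_not h, zero_mul]
    obtain ⟨v, rfl⟩ := exists_num hy0
    rw [← num_append] at hne
    have h1 : eq01 (Nat.log 2 (num (b ++ v))) (c * n) ≠ 0 := by
      intro h
      apply hne
      rw [h, zero_mul, mul_zero]
    have h2 : eq01 (outE c e (num w) (num (b ++ v))) 1 ≠ 0 := by
      intro h
      apply hne
      rw [h, mul_zero, mul_zero]
    have h3 : (b ++ v).length = c * n := by
      by_contra h
      exact h1 (if_neg (by rwa [log_num]))
    refine ⟨v, h3, ?_⟩
    rw [← key (b ++ v) h3]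
    by_contra h
    exact h2 (if_neg h)
  · rintro ⟨v, hv, hacc⟩ h0
    rw [sum_eq_zero_iff] at h0
    have hvl : v.length ≤ c * n := by
      rw [List.length_append] at hv
      omega
    have hy1 : num v ∈ range (2 ^ (c * n + 1)) := by
      rw [mem_range]
      exact lt_of_lt_of_le (num_lt v) (Nat.pow_le_pow_right (by norm_num) (by omega))
    have h5 := h0 (num v) hy1
    rw [← num_append, key (b ++ v) hv, hacc, lt01_of (num_pos v), log_num, hv] at h5
    simp [eq01] at h5

/-- **Average-case hardness for circuits with few nonlinear gates with advice.** -/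
theorem xor_main (c : ℕ) : ∃ (L : Set (List Bool)) (s : ℕ → List Bool), DLINSPACE L ∧
    (∀ n, (s n).length = n) ∧
    (∀ w, w ∈ L ↔ Odd ((List.zipWith and (s w.length) w).count true)) ∧
    ∀ (F : Circ) (k m a : ℕ) (C ε : ℝ), 2 ≤ m → 0 < ε →
      (∀ n : ℕ, open Classical in
        (((Finset.range ((n + 2) ^ k)).filter fun g => w2 n g ∈ F.nonlin).card : ℝ) ≤
          C * ((n : ℝ) + 1) ^ (2 - ε)) → ∃ c' : ℝ, ∀ (n : ℕ) (α : List Bool),
        |({w : List Bool | w.length = n ∧ (w ∈ L ↔ ∃ v : List Bool, (α ++ v).length = c * n ∧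
          F.vals (m * (n + 2) ^ a) w (α ++ v) ((n + 2) ^ k)
            ((n + 2) ^ k - 1) = 1)}.ncard : ℝ) - 2 ^ n / 2| ≤
          c' * ((min α.length (n - α.length) : ℕ) + 1) * 2 ^ (((n : ℝ) + α.length) / 2) := by
  obtain ⟨L, s, h1, h2, h3, h4⟩ := exists_hard (U := UXA c)
    (LS.app3 fun he ha hx => LS.UXA c he ha hx)
  refine ⟨L, s, h1, h2, h3, fun F k m a C ε hm hε hcard => ?_⟩
  obtain ⟨e, n₀, he⟩ := exists_UXA F c k m a hm hε hcard
  refine ⟨2 ^ (e + 1 + n₀), fun n α => ?_⟩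
  set S := {w : List Bool | w.length = n ∧ (w ∈ L ↔ ∃ v : List Bool, (α ++ v).length = c * n ∧
          F.vals (m * (n + 2) ^ a) w (α ++ v) ((n + 2) ^ k) ((n + 2) ^ k - 1) = 1)} with hS
  have hS0 : (0 : ℝ) ≤ S.ncard := Nat.cast_nonneg _
  rcases Nat.lt_or_ge n n₀ with hn | hn
  · have h5 := small_case (e := e) (N := n₀) α (S := S) (fun w hw => hw.1) hn
    have h6 : (2 : ℝ) ^ n / 2 ≤ 2 ^ (e + 1 + n₀) * ((min α.length (n - α.length) : ℕ) + 1) *
        2 ^ (((n : ℝ) + α.length) / 2) := by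
      have hn0 : (0 : ℝ) ≤ n := Nat.cast_nonneg n
      have hm0 : (0 : ℝ) ≤ α.length := Nat.cast_nonneg _
      have h2 : (1 : ℝ) ≤ 2 ^ (((n : ℝ) + α.length) / 2) := two_le_rpow_half (by positivity)
      have h3 : (2 : ℝ) ^ n ≤ 2 ^ (e + 1 + n₀) := pow_le_pow_right₀ (by norm_num) (by omega)
      have h4 : (2 : ℝ) ^ (e + 1 + n₀) * 1 * 1 ≤
          2 ^ (e + 1 + n₀) * ((min α.length (n - α.length) : ℕ) + 1) * 2 ^ (((n : ℝ) + α.length) / 2) := by
        refine mul_le_mul (mul_le_mul_of_nonneg_left (by linarith) (by positivity)) h2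
          (by norm_num) (by positivity)
      have h5 : (0 : ℝ) ≤ 2 ^ n := by positivity
      linarith
    rw [abs_le]
    constructor <;> linarith
  · have key : S = {w : List Bool | w.length = n ∧
        (UXA c e (num α) (num w) ≠ 0 ↔ w ∈ L)} := by
      ext w
      simp only [hS, Set.mem_ofPred_eq]
      refine and_congr_right fun hw => ?_
      have h5 := he w α (by omega)
      rw [hw] at h5
      rw [h5]
      exact iff_comm
    rw [key]
    refine ((h4 e n α).1).trans ?_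
    have hm0 : (0 : ℝ) ≤ α.length := Nat.cast_nonneg _
    have h3 : (2 : ℝ) ^ (e + 1) ≤ 2 ^ (e + 1 + n₀) := pow_le_pow_right₀ (by norm_num) (by omega)
    exact mul_le_mul_of_nonneg_right (mul_le_mul_of_nonneg_right h3 (by positivity))
      (by positivity)

end Pool.Agent.Helper78.Avg
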